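import Pool.Agent.Helper185.SelCH3
import Pool.Agent.Helper292.ForceCH

/-!
The continuum hypothesis gives a set of reals with `S₁(Ω, T)` and without `S₁((O_n)_n, T)`.
-/

namespace Pool.Agent.Results.MP_a930b8_gt.ConsistentlyStrict

open Pool.Agent.Helper185.Sel

theorem under_ch : Cardinal.aleph 1 = Cardinal.continuum.{0} →
    ∃ X : Set ℝ, S1 (OmegaOf (OpenFam X)) (TauOf (OpenFam X)) ∧
      ¬ S1seq (NCovOf (OpenFam X)) (TauOf (OpenFam X)) :=
  Pool.Agent.Helper185.CH.exists_omega_tau_not_strong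

theorem result :
    (∃ (P : Type) (_ : Preorder P), Nonempty P ∧ ∀ p : P,
      p ∈ Pool.Agent.Helper292.ForceCH.OmegaOnePreserved P ∧
      p ∈ Pool.Agent.Helper292.ForceCH.CHHolds P) ∧
    (Cardinal.aleph 1 = Cardinal.continuum.{0} →
    ∃ X : Set ℝ, S1 (OmegaOf (OpenFam X)) (TauOf (OpenFam X)) ∧
      ¬ S1seq (NCovOf (OpenFam X)) (TauOf (OpenFam X))) := by
  refine ⟨?_, under_ch⟩
  obtain ⟨P, i, h1, h2⟩ := Pool.Agent.Helper292.ForceCH.exists_forcing
  exact ⟨P, i, h1, fun p => ⟨(h2 p).1, (h2 p).2.2⟩⟩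

end Pool.Agent.Results.MP_a930b8_gt.ConsistentlyStrict
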