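import Pool.Agent.Helper185.SelCH3

/-!
If `S₁(Ω, T)` implies `S₁((O_n)_n, T)` for all sets of reals, then the continuum hypothesis
fails.
-/

namespace Pool.Agent.Results.MP_a930b8_gt.ImplicationRefutesCH

open Pool.Agent.Helper185.Sel

/-- If every set of reals with `S₁(Ω, T)` satisfies `S₁((O_n)_n, T)`, then the continuum
hypothesis fails. -/
theorem result :
    (∀ X : Set ℝ, S1 (OmegaOf (OpenFam X)) (TauOf (OpenFam X)) →
      S1seq (NCovOf (OpenFam X)) (TauOf (OpenFam X))) →
      Cardinal.aleph 1 ≠ Cardinal.continuum.{0} := by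
  intro h hCH
  obtain ⟨X, h1, h2⟩ := Pool.Agent.Helper185.CH.exists_omega_tau_not_strong hCH
  exact h2 (h X h1)

end Pool.Agent.Results.MP_a930b8_gt.ImplicationRefutesCH
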