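import Pool.Agent.Helper185.SelCH3

/-!
The continuum hypothesis gives a set of reals with `S₁(Ω, T)` and without `S₁((O_n)_n, T)`.
-/

namespace Pool.Agent.Results.MP_a930b8_gt.StrictCH

open Pool.Agent.Helper185.Sel

/-- If every set of reals with `S₁(Ω, T)` satisfies `S₁((O_n)_n, T)`, then the continuum
hypothesis fails. In other words, the continuum hypothesis gives a set of reals that
satisfies `S₁(Ω, T)` but not `S₁((O_n)_n, T)`. -/
theorem result : Cardinal.aleph 1 = Cardinal.continuum.{0} →
    ∃ X : Set ℝ, S1 (OmegaOf (OpenFam X)) (TauOf (OpenFam X)) ∧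
      ¬ S1seq (NCovOf (OpenFam X)) (TauOf (OpenFam X)) :=
  Pool.Agent.Helper185.CH.exists_omega_tau_not_strong

end Pool.Agent.Results.MP_a930b8_gt.StrictCH
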