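import Pool.Agent.Helper185.SelStrong

/-!
There is a set of reals with `S₁(Ω, T)` and without `S₁((O_n)_n, T)` if and only if there is a
set of reals with the gamma-property and without the strong gamma-property.
-/

namespace Pool.Agent.Results.MP_a930b8_gt.StrictIff

open Pool.Agent.Helper185.Sel

/-- Some set of reals satisfies `S₁(Ω, T)` but not `S₁((O_n)_n, T)` if and only if some set of
reals satisfies `S₁(Ω, Γ)` but not `S₁((O_n)_n, Γ)`. -/
theorem result :
    (∃ X : Set ℝ, S1 (OmegaOf (OpenFam X)) (TauOf (OpenFam X)) ∧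
      ¬ S1seq (NCovOf (OpenFam X)) (TauOf (OpenFam X))) ↔
    (∃ X : Set ℝ, S1 (OmegaOf (OpenFam X)) (GammaOf (OpenFam X)) ∧
      ¬ S1seq (NCovOf (OpenFam X)) (GammaOf (OpenFam X))) :=
  strict_iff

end Pool.Agent.Results.MP_a930b8_gt.StrictIff
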